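import Pool.Agent.Helper81.AD2.Alg

/-! Packet AD2-SPAN: the span of the block words modulo fewer blocks and interchanges. -/

namespace Pool.Agent.Helper46.AD2.SPAN

open Pool.Agent.Helper88.AD Pool.Agent.Helper81.AD2

variable {d : ℕ}

/-- The order of two blocks is the order of their letters. -/
theorem idx_lt (W : List (List (Pt d))) (hn : W.flatten.Nodup) {P Q : List (Pt d)}
    (hP : P ∈ W) (hQ : Q ∈ W) {p q : Pt d} (hp : p ∈ P) (hq : q ∈ Q)
    (h : W.idxOf P < W.idxOf Q) : W.flatten.idxOf p < W.flatten.idxOf q := by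
  induction W with
  | nil => exact absurd hP List.not_mem_nil
  | cons l W ih =>
    rw [List.flatten_cons] at hn ⊢
    have hn' := List.nodup_append.1 hn
    by_cases hPl : P = l
    · subst hPl
      have hQl : Q ≠ P := by
        rintro rfl
        exact lt_irrefl _ h
      have hQW : Q ∈ W := (List.mem_cons.1 hQ).resolve_left hQl
      have hqW : q ∈ W.flatten := List.mem_flatten.2 ⟨Q, hQW, hq⟩
      have hqP : q ∉ P := fun h' => (hn'.2.2 q h' q hqW) rfl
      rw [List.idxOf_append_of_mem hp, List.idxOf_append_of_notMem hqP]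
      have := List.idxOf_lt_length_iff.2 hp
      omega
    · have hPW : P ∈ W := (List.mem_cons.1 hP).resolve_left hPl
      have hlQ : Q ≠ l := by
        rintro rfl
        rw [List.idxOf_cons_self] at h
        exact absurd h (Nat.not_lt_zero _)
      have hQW : Q ∈ W := (List.mem_cons.1 hQ).resolve_left hlQ
      rw [List.idxOf_cons_ne _ (Ne.symm hPl), List.idxOf_cons_ne _ (Ne.symm hlQ)] at h
      have hpW : p ∈ W.flatten := List.mem_flatten.2 ⟨P, hPW, hp⟩
      have hqW : q ∈ W.flatten := List.mem_flatten.2 ⟨Q, hQW, hq⟩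
      have hpl : p ∉ l := fun h' => (hn'.2.2 p h' p hpW) rfl
      have hql : q ∉ l := fun h' => (hn'.2.2 q h' q hqW) rfl
      rw [List.idxOf_append_of_notMem hpl, List.idxOf_append_of_notMem hql]
      have := ih hn'.2.1 hPW hQW (Nat.lt_of_succ_lt_succ h)
      omega

theorem idx_iff (W : List (List (Pt d))) (hn : W.flatten.Nodup) {P Q : List (Pt d)}
    (hP : P ∈ W) (hQ : Q ∈ W) (hPQ : P ≠ Q) {p q : Pt d} (hp : p ∈ P) (hq : q ∈ Q) :
    W.idxOf P < W.idxOf Q ↔ W.flatten.idxOf p < W.flatten.idxOf q := by
  constructor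
  · exact idx_lt W hn hP hQ hp hq
  · intro h
    by_contra h'
    rcases Nat.lt_or_ge (W.idxOf Q) (W.idxOf P) with h1 | h1
    · have := idx_lt W hn hQ hP hq hp h1
      omega
    · have h2 : W.idxOf P = W.idxOf Q := by omega
      exact hPQ ((List.idxOf_inj hP).1 h2)

/-- Two blocks commute if they have the same type, or no common arrow. -/
def rr (P Q : List (Pt d)) : Prop :=
  (∀ p ∈ P, ∀ q ∈ Q, p.2 = q.2) ∨ (∀ p ∈ P, ∀ q ∈ Q, p.1 ≠ q.1)

theorem rr_symm (P Q : List (Pt d)) (h : rr P Q) : rr Q P := by
  rcases h with h | h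
  · exact Or.inl fun q hq p hp => (h p hp q hq).symm
  · exact Or.inr fun q hq p hp => (h p hp q hq).symm

/-- The order of two blocks that do not commute is determined by the directions. -/
theorem order_of_dirs {W W' : List (List (Pt d))} (hW : BW W) (hp : W.Perm W')
    (hd : dirs W.flatten = dirs W'.flatten) {P Q : List (Pt d)} (hP : P ∈ W) (hQ : Q ∈ W)
    (hPQ : P ≠ Q) (hr : ¬ rr P Q) : (W.idxOf P < W.idxOf Q ↔ W'.idxOf P < W'.idxOf Q) := by
  have hW' : BW W' := (BW_perm hp).1 hW
  have hP' : P ∈ W' := hp.mem_iff.1 hP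
  have hQ' : Q ∈ W' := hp.mem_iff.1 hQ
  have hn : W.flatten.Nodup := ((isD_iff _).1 hW.2).1
  have hn' : W'.flatten.Nodup := ((isD_iff _).1 hW'.2).1
  unfold rr at hr
  push Not at hr
  obtain ⟨⟨p0, hp0, q0, hq0, h0⟩, ⟨p, hpP, q, hqQ, h1⟩⟩ := hr
  have hp2 : p.2 = p0.2 := (hW.1 P hP).2 p hpP p0 hp0
  have hq2 : q.2 = q0.2 := (hW.1 Q hQ).2 q hqQ q0 hq0
  have hne : p.2 ≠ q.2 := by rw [hp2, hq2]; exact h0
  obtain ⟨i, b⟩ := p
  obtain ⟨j, c⟩ := q
  simp only at h1 hne
  subst h1
  have hdi := congrFun hd i
  unfold dirs at hdi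
  rw [decide_eq_decide] at hdi
  cases b with
  | true =>
    cases c with
    | true => exact absurd rfl hne
    | false =>
      rw [idx_iff W hn hP hQ hPQ hpP hqQ, idx_iff W' hn' hP' hQ' hPQ hpP hqQ]
      exact hdi
  | false =>
    cases c with
    | false => exact absurd rfl hne
    | true =>
      have e1 := idx_iff W hn hQ hP hPQ.symm hqQ hpP
      have e2 := idx_iff W' hn' hQ' hP' hPQ.symm hqQ hpP
      have e3 : W.idxOf P ≠ W.idxOf Q := fun h => hPQ ((List.idxOf_inj hP).1 h)
      have e4 : W'.idxOf P ≠ W'.idxOf Q := fun h => hPQ ((List.idxOf_inj hP').1 h)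
      have e5 : W.idxOf Q < W.idxOf P ↔ W'.idxOf Q < W'.idxOf P := by
        rw [e1, e2]; exact hdi
      omega

/-- Blocks of a block word are different. -/
theorem nodup_of_BW {W : List (List (Pt d))} (hW : BW W) : W.Nodup := by
  have hn : W.flatten.Nodup := ((isD_iff _).1 hW.2).1
  have h1 := hW.1
  clear hW
  induction W with
  | nil => exact List.nodup_nil
  | cons l W ih =>
    rw [List.flatten_cons] at hn
    have hn' := List.nodup_append.1 hn
    rw [List.nodup_cons]
    refine ⟨?_, ih hn'.2.1 fun l' hl' => h1 l' (List.mem_cons_of_mem _ hl')⟩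
    intro hl
    have hne := (h1 l List.mem_cons_self).1
    obtain ⟨p, hp⟩ := List.exists_mem_of_ne_nil l hne
    exact hn'.2.2 p hp p (List.mem_flatten.2 ⟨l, hl, hp⟩) rfl

/-- An interchange of neighbours which commute. -/
theorem step {n : ℕ} {W W' : List (List (Pt d))} {P Q : List (Pt d)} (hr : rr P Q)
    (hW : BW (W ++ P :: Q :: W')) (hl : (W ++ P :: Q :: W').length = n + 1) :
    ev (val (W ++ P :: Q :: W')) - ev (val (W ++ Q :: P :: W')) ∈ F d n ⊔ DD d (n + 1) := by
  have hP : Pur P := hW.1 P (by simp)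
  have hQ : Pur Q := hW.1 Q (by simp)
  have hlen : W.length + W'.length + 1 = n := by
    rw [List.length_append, List.length_cons, List.length_cons] at hl
    omega
  have hperm : (W ++ P :: Q :: W').Perm (W ++ Q :: P :: W') :=
    List.Perm.append_left W (List.Perm.swap _ _ _)
  have hsame : (∀ p ∈ P, ∀ q ∈ Q, p.2 = q.2) →
      ev (val (W ++ P :: Q :: W')) - ev (val (W ++ Q :: P :: W')) ∈ F d n ⊔ DD d (n + 1) := by
    intro h
    have := s_SWAP d W W' P Q hW h
    rw [hlen] at this
    exact Submodule.mem_sup_left this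
  rcases hr with h | h
  · exact hsame h
  · obtain ⟨p, hp⟩ := List.exists_mem_of_ne_nil P hP.1
    obtain ⟨q, hq⟩ := List.exists_mem_of_ne_nil Q hQ.1
    by_cases hpq : p.2 = q.2
    · apply hsame
      intro p' hp' q' hq'
      rw [hP.2 p' hp' p hp, hQ.2 q' hq' q hq, hpq]
    · apply Submodule.mem_sup_right
      rcases Bool.eq_false_or_eq_true p.2 with hb | hb
      · have hc : q.2 = false := by
          rcases Bool.eq_false_or_eq_true q.2 with hc | hc
          · exact absurd (hb.trans hc.symm) hpq
          · exact hc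
        refine Submodule.subset_span ⟨W, W', P, Q, hW, hl.le, ?_, ?_, h, rfl⟩
        · intro p' hp'; rw [hP.2 p' hp' p hp, hb]
        · intro q' hq'; rw [hQ.2 q' hq' q hq, hc]
      · have hc : q.2 = true := by
          rcases Bool.eq_false_or_eq_true q.2 with hc | hc
          · exact hc
          · exact absurd (hb.trans hc.symm) hpq
        rw [← neg_sub]
        apply Submodule.neg_mem
        refine Submodule.subset_span ⟨W, W', Q, P, (BW_perm hperm).1 hW, ?_, ?_, ?_, ?_, rfl⟩
        · rw [← hperm.length_eq]; exact hl.le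
        · intro q' hq'; rw [hQ.2 q' hq' q hq, hc]
        · intro p' hp'; rw [hP.2 p' hp' p hp, hb]
        · intro q' hq' p' hp'; exact (h p' hp' q' hq').symm

/-- Block words of the same class agree modulo fewer blocks and interchanges. -/
theorem same_class (hTML : S_TML) {n : ℕ} {W W' : List (List (Pt d))} (hW : BW W)
    (hl : W.length = n + 1) (hp : W.Perm W') (hd : dirs W.flatten = dirs W'.flatten) :
    ev (val W) - ev (val W') ∈ F d n ⊔ DD d (n + 1) := by
  have h := hTML (List (Pt d)) rr W W' rr_symm (nodup_of_BW hW) hp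
    (fun P hP Q hQ hPQ hr => by
      have e := lawful_beq_subsingleton (List.instBEq : BEq (List (Pt d))) instBEqOfDecidableEq
      rw [← e]
      exact order_of_dirs hW hp hd hP hQ hPQ hr)
  have key : ∀ M, Relation.ReflTransGen (fun M M' => ∃ (u w : List (List (Pt d)))
      (a b : List (Pt d)), rr a b ∧ M = u ++ a :: b :: w ∧ M' = u ++ b :: a :: w) W M →
      W.Perm M ∧ ev (val W) - ev (val M) ∈ F d n ⊔ DD d (n + 1) := by
    intro M hM
    induction hM with
    | refl => exact ⟨List.Perm.refl _, by rw [sub_self]; exact Submodule.zero_mem _⟩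
    | tail _ hs ih =>
      obtain ⟨u, w, a, b, hab, rfl, rfl⟩ := hs
      obtain ⟨ih1, ih2⟩ := ih
      have hperm : (u ++ a :: b :: w).Perm (u ++ b :: a :: w) :=
        List.Perm.append_left u (List.Perm.swap _ _ _)
      refine ⟨ih1.trans hperm, ?_⟩
      have hs := step (n := n) hab ((BW_perm ih1).1 hW) (by rw [← ih1.length_eq]; exact hl)
      have := Submodule.add_mem _ ih2 hs
      rwa [sub_add_sub_cancel] at this
  exact (key W' h).2

/-- A block word is a combination of block words whose blocks start with the smallest names. -/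
theorem minFirst_span (W : List (List (Pt d))) (h1 : ∀ l ∈ W, Pur l) (hn : W.flatten.Nodup) :
    val W ∈ Submodule.span ℚ {x | ∃ W' : List (List (Pt d)), (∀ l ∈ W', Pur l) ∧
      W'.flatten.Perm W.flatten ∧ W'.length = W.length ∧ MinFirst W' ∧ x = val W'} := by
  induction W with
  | nil =>
    refine Submodule.subset_span ⟨[], h1, List.Perm.refl _, rfl, ?_, rfl⟩
    intro a m hm
    exact absurd hm List.not_mem_nil
  | cons l W ih =>
    rw [List.flatten_cons] at hn
    have hn' := List.nodup_append.1 hn
    have hl : Pur l := h1 l List.mem_cons_self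
    have hW := ih (fun l' hl' => h1 l' (List.mem_cons_of_mem _ hl')) hn'.2.1
    obtain ⟨p0, hp0⟩ := List.exists_mem_of_ne_nil l hl.1
    obtain ⟨a, ha, hmin⟩ := Finset.exists_min_image l.toFinset (fun p => p.1)
      ⟨p0, List.mem_toFinset.2 hp0⟩
    rw [List.mem_toFinset] at ha
    rw [val_cons]
    have hfix := s_FIX d l a ha
    have e1 : lb l * val W = LinearMap.mulRight ℚ (val W) (lb l) := rfl
    rw [e1]
    refine span_le_of (LinearMap.mulRight ℚ (val W)) ?_ hfix
    rintro x ⟨m, hm, rfl⟩
    have e2 : LinearMap.mulRight ℚ (val W) (lb (a :: m)) =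
      LinearMap.mulLeft ℚ (lb (a :: m)) (val W) := rfl
    rw [e2]
    refine span_le_of (LinearMap.mulLeft ℚ (lb (a :: m))) ?_ hW
    rintro y ⟨W', g1, g2, g3, g4, rfl⟩
    rw [LinearMap.mulLeft_apply, ← val_cons]
    refine Submodule.subset_span ⟨(a :: m) :: W', ?_, ?_, ?_, ?_, rfl⟩
    · intro l' hl'
      rcases List.mem_cons.1 hl' with rfl | hl'
      · refine ⟨by simp, ?_⟩
        intro p hp q hq
        exact hl.2 p (hm.mem_iff.1 hp) q (hm.mem_iff.1 hq)
      · exact g1 l' hl'
    · rw [List.flatten_cons, List.flatten_cons]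
      exact hm.append g2
    · rw [List.length_cons, List.length_cons, g3]
    · intro b m' hm' p hp
      rcases List.mem_cons.1 hm' with h | h
      · rw [List.cons.injEq] at h
        obtain ⟨rfl, rfl⟩ := h
        have hpl : p ∈ l := hm.mem_iff.1 (List.mem_cons_of_mem _ hp)
        have hle : b.1 ≤ p.1 := hmin p (List.mem_toFinset.2 hpl)
        refine lt_of_le_of_ne hle ?_
        intro he
        have hbp : b = p := Prod.ext he (hl.2 b ha p hpl)
        have hnod : (b :: m').Nodup := hm.nodup_iff.2 hn'.1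
        rw [List.nodup_cons] at hnod
        exact hnod.1 (hbp ▸ hp)
      · exact g4 b m' h p hp

/-- There are finitely many block words. -/
theorem finite_BW (d : ℕ) : {W : List (List (Pt d)) | BW W}.Finite := by
  have h0 : ∀ (W : List (List (Pt d))) (N : ℕ), (∀ l ∈ W, l ≠ []) → W.flatten.length ≤ N →
      W.length ≤ N ∧ ∀ l ∈ W, l.length ≤ N := by
    intro W
    induction W with
    | nil => intro N _ _; simp
    | cons l W ih =>
      intro N h h'
      rw [List.flatten_cons, List.length_append] at h'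
      have hl : l.length ≠ 0 := by
        intro h0
        exact h l List.mem_cons_self (List.eq_nil_of_length_eq_zero h0)
      have := ih (N - 1) (fun l' hl' => h l' (List.mem_cons_of_mem _ hl')) (by omega)
      constructor
      · rw [List.length_cons]; omega
      · intro l' hl'
        rcases List.mem_cons.1 hl' with rfl | hl'
        · omega
        · have := this.2 l' hl'
          omega
  have hfin : {l : List (Pt d) | l.length ≤ 2 * d}.Finite := List.finite_length_le _ _
  have : Finite {l : List (Pt d) | l.length ≤ 2 * d} := hfin.to_subtype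
  have hfin2 : {L : List {l : List (Pt d) | l.length ≤ 2 * d} | L.length ≤ 2 * d}.Finite :=
    List.finite_length_le _ _
  refine (hfin2.image fun L => L.map Subtype.val).subset ?_
  intro W hW
  obtain ⟨h1, h2⟩ := h0 W (2 * d) (fun l hl => (hW.1 l hl).1) (isD_length hW.2).le
  refine ⟨W.attach.map fun l => ⟨l.1, h2 l.1 l.2⟩, ?_, ?_⟩
  · show (List.map _ _).length ≤ 2 * d
    rw [List.length_map, List.length_attach]
    exact h1
  · simp

theorem finite_Cls (d : ℕ) : (Cls d).Finite := by
  refine ((finite_BW d).image fun W : List (List (Pt d)) =>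
    ((↑W : Multiset (List (Pt d))), dirs W.flatten)).subset ?_
  rintro c ⟨W, h1, _, rfl⟩
  exact ⟨W, h1, rfl⟩

theorem t (hTML : S_TML) : S_SPAN := by
  intro d n
  classical
  have hfin : {c ∈ Cls d | Multiset.card c.1 = n + 1}.Finite :=
    (finite_Cls d).subset fun c hc => hc.1
  let f : Multiset (List (Pt d)) × (Fin d → Bool) → V d := fun c =>
    if h : c ∈ Cls d then ev (val h.choose) else 0
  refine ⟨hfin.toFinset.image f, ?_, ?_⟩
  · refine Finset.card_image_le.trans ?_
    rw [Set.ncard_eq_toFinset_card _ hfin]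
  · unfold F
    rw [Submodule.span_le]
    rintro v ⟨W, hW, hlen, rfl⟩
    show ev (val W) ∈ F d n ⊔ DD d (n + 1) ⊔
      Submodule.span ℚ ((hfin.toFinset.image f : Finset (V d)) : Set (V d))
    rcases Nat.lt_or_ge n W.length with hn | hn
    · have hlen' : W.length = n + 1 := by omega
      have hD := (isD_iff _).1 hW.2
      refine span_le_of ev ?_ (minFirst_span W hW.1 hD.1)
      rintro x ⟨W', g1, g2, g3, g4, rfl⟩
      have hW' : BW W' := ⟨g1, (isD_perm g2).2 hW.2⟩
      have hc : ((W' : Multiset (List (Pt d))), dirs W'.flatten) ∈ Cls d := ⟨W', hW', g4, rfl⟩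
      have hf : f ((W' : Multiset (List (Pt d))), dirs W'.flatten) = ev (val hc.choose) :=
        dif_pos hc
      obtain ⟨k1, k2, k3⟩ := hc.choose_spec
      rw [Prod.mk.injEq, Multiset.coe_eq_coe] at k3
      have hdiff := same_class hTML (n := n) hW' (by rw [g3, hlen']) k3.1 k3.2
      have hmem : f ((W' : Multiset (List (Pt d))), dirs W'.flatten) ∈
          Submodule.span ℚ ((hfin.toFinset.image f : Finset (V d)) : Set (V d)) := by
        apply Submodule.subset_span
        rw [Finset.mem_coe, Finset.mem_image]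
        refine ⟨_, ?_, rfl⟩
        rw [Set.Finite.mem_toFinset]
        refine ⟨hc, ?_⟩
        rw [Multiset.coe_card, g3, hlen']
      rw [hf] at hmem
      have := Submodule.add_mem _ (Submodule.mem_sup_left hdiff)
        (Submodule.mem_sup_right (S := F d n ⊔ DD d (n + 1)) hmem)
      rwa [sub_add_cancel] at this
    · exact Submodule.mem_sup_left (Submodule.mem_sup_left (mem_F hW hn))

end Pool.Agent.Helper46.AD2.SPAN
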